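import Pool.Agent.helper16.EXC.Spec3

set_option autoImplicit false

open Finset

namespace Pool.Agent.EXC

theorem ZPR : ZPR_stmt := by
  intro n C _ F _ x j hx
  induction j with
  | zero =>
    intro A hA
    have h : A.map (MulEquiv.toMonoidHom (x ^ 0)) = A := by
      ext g
      rw [Subgroup.mem_map]
      constructor
      · rintro ⟨a, ha, rfl⟩
        have e : (MulEquiv.toMonoidHom (x ^ 0)) a = a := by
          rw [pow_zero]
          rfl
        rw [e]
        exact ha
      · intro hg
        refine ⟨g, hg, ?_⟩
        rw [pow_zero]
        rfl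
    rw [h]
    exact hA
  | succ j ih =>
    intro A hA
    have h : A.map (MulEquiv.toMonoidHom (x ^ (j + 1))) = (A.map (MulEquiv.toMonoidHom (x ^ j))).map (MulEquiv.toMonoidHom x) := by
      rw [Subgroup.map_map]
      refine congrArg (fun f => A.map f) ?_
      refine MonoidHom.ext fun a => ?_
      have e : (x ^ (j + 1)) a = x ((x ^ j) a) := by
        rw [pow_succ']
        rfl
      exact e
    rw [h]
    exact hx _ (ih A hA)

end Pool.Agent.EXC
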